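import Pool.Agent.W102.GI.Defs

set_option autoImplicit false

namespace Pool.Agent.W280.GI

open Pool.Agent.W102.GI
open Finset

/-- triples with the lexicographic order -/
abbrev T (r : ℕ) := Fin (2 * r + 1) ×ₗ (Fin (2 * r + 1) ×ₗ ℕ)

def fu {r : ℕ} (t : T r) : Fin (2 * r + 1) := (ofLex t).1
def fv {r : ℕ} (t : T r) : Fin (2 * r + 1) := (ofLex (ofLex t).2).1
def fk {r : ℕ} (t : T r) : ℕ := (ofLex (ofLex t).2).2
def mk {r : ℕ} (u v : Fin (2 * r + 1)) (k : ℕ) : T r := toLex (u, toLex (v, k))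

theorem fu_mk {r : ℕ} (u v : Fin (2 * r + 1)) (k : ℕ) : fu (mk u v k) = u := rfl
theorem fv_mk {r : ℕ} (u v : Fin (2 * r + 1)) (k : ℕ) : fv (mk u v k) = v := rfl
theorem fk_mk {r : ℕ} (u v : Fin (2 * r + 1)) (k : ℕ) : fk (mk u v k) = k := rfl
theorem mk_eta {r : ℕ} (t : T r) : mk (fu t) (fv t) (fk t) = t := rfl

theorem T_ext {r : ℕ} {t t' : T r} (h1 : fu t = fu t') (h2 : fv t = fv t') (h3 : fk t = fk t') : t = t' := by
  rw [← mk_eta t, ← mk_eta t', h1, h2, h3]

theorem lt_iff {r : ℕ} (t t' : T r) :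
    t < t' ↔ fu t < fu t' ∨ fu t = fu t' ∧ (fv t < fv t' ∨ fv t = fv t' ∧ fk t < fk t') := by
  rw [Prod.Lex.lt_iff, Prod.Lex.lt_iff]
  exact Iff.rfl

/-- the finite set of triples -/
def X {r : ℕ} (N : Fin (2 * r + 1) → Fin (2 * r + 1) → ℕ) : Finset (T r) :=
  ((Finset.univ : Finset (Fin (2 * r + 1) × Fin (2 * r + 1))).sigma
    (fun p => Finset.range (N p.1 p.2))).image (fun q => mk q.1.1 q.1.2 q.2)

theorem mem_X {r : ℕ} (N : Fin (2 * r + 1) → Fin (2 * r + 1) → ℕ) (t : T r) :
    t ∈ X N ↔ fk t < N (fu t) (fv t) := by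
  unfold X
  rw [Finset.mem_image]
  constructor
  · rintro ⟨q, hq, rfl⟩
    rw [Finset.mem_sigma] at hq
    exact Finset.mem_range.mp hq.2
  · intro h
    refine ⟨⟨(fu t, fv t), fk t⟩, ?_, mk_eta t⟩
    rw [Finset.mem_sigma]
    exact ⟨Finset.mem_univ _, Finset.mem_range.mpr h⟩

theorem card_X {r : ℕ} (N : Fin (2 * r + 1) → Fin (2 * r + 1) → ℕ) :
    (X N).card = ∑ u, ∑ v, N u v := by
  unfold X
  rw [Finset.card_image_of_injective, Finset.card_sigma, ← Finset.univ_product_univ, Finset.sum_product]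
  · apply Finset.sum_congr rfl
    intro u _
    apply Finset.sum_congr rfl
    intro v _
    exact Finset.card_range _
  · rintro ⟨⟨u, v⟩, k⟩ ⟨⟨u', v'⟩, k'⟩ h
    have h1 : u = u' := congrArg fu h
    have h2 : v = v' := congrArg fv h
    have h3 : k = k' := congrArg fk h
    rw [h1, h2, h3]

def tau {r : ℕ} (t : T r) : T r := mk (fv t) (fu t) (fk t)
def rho {r : ℕ} (N : Fin (2 * r + 1) → Fin (2 * r + 1) → ℕ) (t : T r) : T r :=
  mk (Fin.rev (fu t)) (Fin.rev (fv t)) (N (fu t) (fv t) - 1 - fk t)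

theorem ysurj : YSURJ := by
  intro n r N hN
  obtain ⟨hsym, hcen, hsum⟩ := hN
  have hcard : (X N).card = 2 * n := by rw [card_X, hsum]
  have htau : ∀ t ∈ X N, tau t ∈ X N := by
    intro t ht
    rw [mem_X] at ht ⊢
    show fk t < N (fv t) (fu t)
    rw [hsym]; exact ht
  have hrho : ∀ t ∈ X N, rho N t ∈ X N := by
    intro t ht
    rw [mem_X] at ht ⊢
    show N (fu t) (fv t) - 1 - fk t < N (Fin.rev (fu t)) (Fin.rev (fv t))
    rw [hcen]; omega
  have hanti : ∀ t ∈ X N, ∀ t' ∈ X N, t < t' → rho N t' < rho N t := by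
    intro t ht t' ht' hlt
    rw [mem_X] at ht ht'
    rw [lt_iff] at hlt ⊢
    rcases hlt with h | ⟨h1, h2 | ⟨h2, h3⟩⟩
    · left; exact Fin.rev_lt_rev.mpr h
    · right; exact ⟨congrArg Fin.rev h1.symm, Or.inl (Fin.rev_lt_rev.mpr h2)⟩
    · right
      refine ⟨congrArg Fin.rev h1.symm, Or.inr ⟨congrArg Fin.rev h2.symm, ?_⟩⟩
      show N (fu t') (fv t') - 1 - fk t' < N (fu t) (fv t) - 1 - fk t
      rw [h1, h2] at ht ⊢
      omega
  have hcomm : ∀ t, rho N (tau t) = tau (rho N t) := by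
    intro t
    apply T_ext
    · rfl
    · rfl
    · show N (fv t) (fu t) - 1 - fk t = N (fu t) (fv t) - 1 - fk t
      rw [hsym]
  let e : Fin (2 * n) ≃o X N := (X N).orderIsoOfFin hcard
  let E : Fin (2 * n) → T r := fun i => (e i : T r)
  have hE : ∀ i, E i ∈ X N := fun i => (e i).2
  have hEinj : ∀ i j, E i = E j → i = j := fun i j h => e.injective (Subtype.ext h)
  have hElt : ∀ i j, i < j ↔ E i < E j := fun i j => (e.lt_iff_lt).symm
  let d : (t : T r) → t ∈ X N → Fin (2 * n) := fun t ht => e.symm ⟨t, ht⟩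
  have hd : ∀ t ht, E (d t ht) = t := by
    intro t ht
    show ((e (e.symm ⟨t, ht⟩) : X N) : T r) = t
    rw [OrderIso.apply_symm_apply]
  let s : Fin (2 * n) → Fin (2 * n) := fun i => d (tau (E i)) (htau _ (hE i))
  have hEs : ∀ i, E (s i) = tau (E i) := fun i => hd _ _
  have hss : ∀ i, s (s i) = i := by
    intro i
    apply hEinj
    rw [hEs, hEs]
    rfl
  -- the reversal
  let φ : Fin (2 * n) → Fin (2 * n) := fun i => d (rho N (E (Fin.rev i))) (hrho _ (hE _))
  have hφ : StrictMono φ := by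
    intro i j hij
    rw [hElt, hd, hd]
    apply hanti _ (hE _) _ (hE _)
    rw [← hElt]
    exact Fin.rev_lt_rev.mpr hij
  have hφid : φ = id := by
    apply (StrictMono.range_inj hφ strictMono_id).mp
    rw [Set.range_id]
    exact (Finite.injective_iff_surjective.mp hφ.injective).range_eq
  have hErev : ∀ i, E (Fin.rev i) = rho N (E i) := by
    intro i
    have h1 : φ (Fin.rev i) = Fin.rev i := congrFun hφid _
    have h2 : E (φ (Fin.rev i)) = rho N (E (Fin.rev (Fin.rev i))) := hd _ _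
    rw [h1, Fin.rev_rev] at h2
    exact h2
  have hinv : Function.Involutive s := hss
  refine ⟨(hinv.toPerm, fun i => fu (E i)), ?_, ?_⟩
  · unfold Y
    rw [Finset.mem_filter]
    refine ⟨Finset.mem_univ _, hss, ?_, ?_, ?_, ?_⟩
    · intro i
      apply hEinj
      show E (s (Fin.rev i)) = E (Fin.rev (s i))
      rw [hEs, hErev, hErev, hEs, hcomm]
    · intro i j hij
      show fu (E i) ≤ fu (E j)
      rcases eq_or_lt_of_le hij with h | h
      · rw [h]
      · rw [hElt, lt_iff] at h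
        rcases h with h | h
        · exact h.le
        · exact h.1.le
    · intro i
      show fu (E (Fin.rev i)) = Fin.rev (fu (E i))
      rw [hErev]; rfl
    · intro i j hij huv
      show s i < s j
      rw [hElt, hEs, hEs, lt_iff]
      have hu : fu (E i) = fu (E j) := huv
      rw [hElt, lt_iff] at hij
      rcases hij with h | ⟨h1, h2 | ⟨h2, h3⟩⟩
      · exact absurd hu h.ne
      · left; exact h2
      · right; exact ⟨h2, Or.inr ⟨h1, h3⟩⟩
  · funext u v
    unfold mat
    rw [← Finset.card_range (N u v)]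
    apply Finset.card_bij (fun i _ => fk (E i))
    · intro i hi
      rw [Finset.mem_filter] at hi
      have h1 : fu (E i) = u := hi.2.1
      have h2 : fu (E (s i)) = v := hi.2.2
      rw [hEs] at h2
      have h3 : fv (E i) = v := h2
      have h4 := (mem_X N _).mp (hE i)
      rw [h1, h3] at h4
      exact Finset.mem_range.mpr h4
    · intro i hi j hj hij
      rw [Finset.mem_filter] at hi hj
      have h1 : fu (E i) = u := hi.2.1
      have h2 : fu (E (s i)) = v := hi.2.2
      rw [hEs] at h2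
      have h3 : fv (E i) = v := h2
      have h1' : fu (E j) = u := hj.2.1
      have h2' : fu (E (s j)) = v := hj.2.2
      rw [hEs] at h2'
      have h3' : fv (E j) = v := h2'
      apply hEinj
      exact T_ext (h1.trans h1'.symm) (h3.trans h3'.symm) hij
    · intro k hk
      rw [Finset.mem_range] at hk
      have hm : mk u v k ∈ X N := by
        rw [mem_X]; exact hk
      refine ⟨d (mk u v k) hm, ?_, ?_⟩
      · rw [Finset.mem_filter]
        refine ⟨Finset.mem_univ _, ?_, ?_⟩
        · show fu (E (d (mk u v k) hm)) = u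
          rw [hd]; rfl
        · show fu (E (s (d (mk u v k) hm))) = v
          rw [hEs, hd]; rfl
      · rw [hd]; rfl

end Pool.Agent.W280.GI
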